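import Mathlib.Data.Nat.ModEq
import Mathlib.Data.Nat.Bitwise
import Mathlib.Tactic.Ring

set_option autoImplicit false

namespace Pool.Agent.Results.MP_aad82b_nt.LastDigitNine

/-- repeated squaring: `pm n l` is `2 ^ e` modulo `n`, where `l` lists the binary digits of `e`,
most significant digit first -/
def pm (n : ℕ) : List Bool → ℕ → ℕ
  | [], a => a
  | b :: l, a => pm n l ((if b then 2 * (a * a) else a * a) % n)

/-- the number with the binary digits `l` appended to those of `e` -/
def ev : List Bool → ℕ → ℕ
  | [], e => e
  | b :: l, e => ev l (2 * e + if b then 1 else 0)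

lemma pm_spec (n : ℕ) : ∀ (l : List Bool) (a e : ℕ), a ≡ 2 ^ e [MOD n] →
    pm n l a ≡ 2 ^ ev l e [MOD n]
  | [], a, e, h => h
  | b :: l, a, e, h => by
    apply pm_spec n l
    have h2 : a * a ≡ 2 ^ (2 * e) [MOD n] := by
      have := h.mul h
      rwa [← pow_add, ← two_mul] at this
    cases b with
    | false =>
      simp only [Bool.false_eq_true, if_false, add_zero]
      exact (Nat.mod_modEq _ _).trans h2
    | true =>
      simp only [if_true]
      refine (Nat.mod_modEq _ _).trans ?_
      rw [pow_succ, mul_comm]
      exact h2.mul_right 2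

/-- the binary digits of `1210344597` -/
def dig : List Bool :=
  [true, false, false, true, false, false, false, false, false, true, false, false, true,
    false, false, false, true, true, false, false, true, false, false, true, false, false,
    true, false, true, false, true]

lemma dvd_of (n e : ℕ) (h : 1 ≡ 2 ^ e [MOD n]) : n ∣ 2 ^ e - 1 :=
  (Nat.modEq_iff_dvd' Nat.one_le_two_pow).mp h

lemma main (n : ℕ) (l : List Bool) (h1 : pm n l 1 = 1) (h2 : ev l 0 = n - 2) :
    n ∣ 2 ^ (n - 2) - 1 := by
  have h := pm_spec n l 1 0 (by rw [pow_zero])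
  rw [h1, h2] at h
  exact dvd_of n _ h

/-- There is an integer `n ≥ 2` with last decimal digit `9` such that `n` divides `2^(n-2) - 1`. -/
theorem result : ∃ n : ℕ, 2 ≤ n ∧ n % 10 = 9 ∧ n ∣ 2 ^ (n - 2) - 1 :=
  ⟨1210344599, by decide, by decide, main 1210344599 dig (by decide +kernel) (by decide +kernel)⟩

end Pool.Agent.Results.MP_aad82b_nt.LastDigitNine
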